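import Pool.Agent.Helper64.BKA.CoreV

/-!
# Conjugate self-dual motives: definitions (MP_c63a07_nt)

`F` is a number field with an involution `c`. For a motive `M₀` of weight `w` over `F` such that the
conjugate `M₀ᶜ` is the twist by `-w` of the dual of `M₀`, the `λ`-adic realisations carry the
pairings below.
-/

set_option autoImplicit false

open NumberField
open scoped Classical

namespace CP18

open BKA

/-- the automorphism `s` of the algebraic closure of `F` induces `c` on `F` -/
def Lifts {F : Type} [Field F] [NumberField F] (c : F ≃ₐ[ℚ] F)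
    (s : AlgebraicClosure F ≃+* AlgebraicClosure F) : Prop :=
  ∀ x : F, s (algebraMap F (AlgebraicClosure F) x) = algebraMap F (AlgebraicClosure F) (c x)

/-- A conjugate orthogonal representation `ρ` on `V = k ^ n` of the absolute Galois group of `F`.
For every `s` that induces `c` there is a nondegenerate pairing `B` (think of
`B x y = ⟨x, s⁻¹ y⟩`) with `B (σ x) (s σ s⁻¹ y) = χ σ * B x y` and
`B y x = (χ s)⁻¹ * B x (s ^ 2 y)`. The multiplier `χ` is the `-w`-th power of the cyclotomic
character. -/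
structure ConjOrth (F : Type) [Field F] [NumberField F] (c : F ≃ₐ[ℚ] F) (k : Type) [Field k]
    (n : ℕ) where
  ρ : Gal F →* Matrix.GeneralLinearGroup (Fin n) k
  χ : (AlgebraicClosure F ≃+* AlgebraicClosure F) →* kˣ
  pair : ∀ s : AlgebraicClosure F ≃+* AlgebraicClosure F, Lifts c s →
    ∃ B : (Fin n → k) →ₗ[k] (Fin n → k) →ₗ[k] k,
      (∀ y, (∀ x, B x y = 0) → y = 0) ∧
      (∀ σ τ : Gal F, (∀ z, τ (s z) = s (σ z)) → ∀ x y,
        B (vec ρ σ x) (vec ρ τ y) = ((χ σ.toRingEquiv : kˣ) : k) * B x y) ∧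
      ∀ τ : Gal F, (∀ z, τ z = s (s z)) → ∀ x y,
        B y x = (((χ s)⁻¹ : kˣ) : k) * B x (vec ρ τ y)

/-- the invariants of the inertia group at `𝔓` -/
noncomputable def ConjOrth.inv {F : Type} [Field F] [NumberField F] {c : F ≃ₐ[ℚ] F} {k : Type}
    [Field k] {n : ℕ} (R : ConjOrth F c k n) (𝔓 : Ideal (Zb F)) : Submodule k (Fin n → k) where
  carrier := {x | ∀ σ : Gal F, Congr 𝔓 1 σ → vec R.ρ σ x = x}
  zero_mem' := fun σ _ => Matrix.mulVec_zero _
  add_mem' := by
    intro x y hx hy σ hσ
    have h : vec R.ρ σ (x + y) = vec R.ρ σ x + vec R.ρ σ y := Matrix.mulVec_add _ _ _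
    rw [h, hx σ hσ, hy σ hσ]
  smul_mem' := by
    intro a x hx σ hσ
    have h : vec R.ρ σ (a • x) = a • vec R.ρ σ x := Matrix.mulVec_smul _ _ _
    rw [h, hx σ hσ]

/-- `R` is tamely ramified at the place `v`, which ramifies over the fixed field of `c`, and `a` is
the exponent of the conductor, i.e. the codimension of the invariants of the inertia group: for a
prime `𝔓` over `v` there is an element `s` of the inertia group (of the fixed field of `c`) that
induces `c`, such that `s ^ 2` generates the image of the inertia group of `F` at `𝔓`; more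
precisely the vectors fixed by `τ = s ^ 2` are fixed by the whole inertia group. -/
def ConjOrth.Tame {F : Type} [Field F] [NumberField F] {c : F ≃ₐ[ℚ] F} {k : Type}
    [Field k] {n : ℕ} (R : ConjOrth F c k n) (v : Pl F) (a : ℕ) : Prop :=
  ∃ (𝔓 : Ideal (Zb F)) (s : AlgebraicClosure F ≃+* AlgebraicClosure F) (τ : Gal F),
    Over v 𝔓 ∧ Lifts c s ∧
    (∀ x y : Zb F, (y : AlgebraicClosure F) = s (x : AlgebraicClosure F) → y - x ∈ 𝔓) ∧
    R.χ s = 1 ∧ (∀ z, τ z = s (s z)) ∧
    (∀ x, vec R.ρ τ x = x → x ∈ R.inv 𝔓) ∧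
    a + Module.finrank k (R.inv 𝔓) = n

/-- the conductor over `ℚ` of a motive of rank `n` over `F` with conductor `∏ v ^ (a v)` -/
noncomputable def cond (F : Type) [Field F] [NumberField F] (n : ℕ) (a : Pl F →₀ ℕ) : ℕ :=
  (discr F).natAbs ^ n * a.prod fun v j => q v ^ j

/-- the functional equation with root number `ε` and conductor `N`, at the points where both sides
are holomorphic -/
def FunEq (Λ : ℂ → ℂ) (w : ℤ) (N : ℕ) (ε : ℂ) : Prop :=
  ∀ s : ℂ, AnalyticAt ℂ Λ s → AnalyticAt ℂ Λ (w + 1 - s) →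
    Λ s = ε * (N : ℂ) ^ (((w : ℂ) + 1) / 2 - s) * Λ (w + 1 - s)

end CP18
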