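import Pool.Agent.Helper18.BKA.DEL

/-!
# The discriminant of a field with an involution (MP_c63a07_nt)
-/

set_option autoImplicit false

open NumberField BKA Module
open scoped Matrix

namespace CP18

/-- discriminants of two bases differ by a square -/
theorem discr_basis_sq {F : Type} [Field F] [NumberField F] {ι κ : Type} [Fintype ι] [Fintype κ]
    [DecidableEq ι] [DecidableEq κ] (b : Basis ι ℚ F) (b' : Basis κ ℚ F) :
    ∃ r : ℚ, r ≠ 0 ∧ Algebra.discr ℚ b = r ^ 2 * Algebra.discr ℚ b' := by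
  set e := b'.indexEquiv b with he
  set b2 : Basis ι ℚ F := b'.reindex e with hb2
  have h1 : Algebra.discr ℚ b2 = Algebra.discr ℚ b' := by
    rw [hb2, Basis.coe_reindex, Algebra.discr_reindex]
  have h2 := Algebra.discr_of_matrix_vecMul (A := ℚ) (b2 : ι → F) (b2.toMatrix b)
  rw [Basis.toMatrix_map_vecMul] at h2
  refine ⟨(b2.toMatrix b).det, ?_, by rw [h2, h1]⟩
  intro h0
  rw [h0] at h2
  exact Algebra.discr_not_zero_of_basis ℚ b (by rw [h2]; ring)

/-- the sum decomposition for an involution -/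
theorem exists_decomp {F : Type} [Field F] [NumberField F] (c : F ≃ₐ[ℚ] F)
    (hc : ∀ x, c (c x) = x) (K : IntermediateField ℚ F) (hK : ∀ x, x ∈ K ↔ c x = x) (y : F)
    (hy : y ≠ 0) (hcy : c y = -y) :
    ∃ e : (K × K) ≃ₗ[ℚ] F, ∀ x, e x = (x.1 : F) + (x.2 : F) * y := by
  let f : (K × K) →ₗ[ℚ] F := (K.val.toLinearMap).coprod
    ((LinearMap.mulRight ℚ y).comp K.val.toLinearMap)
  have hf : ∀ x, f x = (x.1 : F) + (x.2 : F) * y := fun x => rfl
  have hinj : Function.Injective f := by
    rw [injective_iff_map_eq_zero]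
    intro x hx
    rw [hf] at hx
    have h1 : c (x.1 : F) = x.1 := (hK _).1 x.1.2
    have h2 : c (x.2 : F) = x.2 := (hK _).1 x.2.2
    have h3 := congrArg c hx
    rw [map_add, map_mul, h1, h2, hcy, map_zero] at h3
    have h4 : (x.1 : F) = 0 := by
      have : (2 : F) * x.1 = 0 := by linear_combination hx + h3
      exact (mul_eq_zero.1 this).resolve_left two_ne_zero
    have h5 : (x.2 : F) = 0 := by
      rw [h4, zero_add] at hx
      exact (mul_eq_zero.1 hx).resolve_right hy
    exact Prod.ext (Subtype.ext h4) (Subtype.ext h5)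
  have hsur : Function.Surjective f := by
    intro u
    have h1 : (u + c u) / 2 ∈ K := by
      rw [hK, map_div₀, map_add, hc, map_ofNat]
      ring
    have h2 : (u - c u) / (2 * y) ∈ K := by
      rw [hK, map_div₀, map_sub, hc, map_mul, map_ofNat, hcy]
      rw [div_eq_div_iff (by simp [hy]) (by simp [hy])]
      ring
    refine ⟨(⟨_, h1⟩, ⟨_, h2⟩), ?_⟩
    rw [hf]
    change (u + c u) / 2 + (u - c u) / (2 * y) * y = u
    field_simp
    ring
  exact ⟨LinearEquiv.ofBijective f ⟨hinj, hsur⟩, hf⟩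

/-- the trace vanishes on the anti-invariant elements -/
theorem trace_anti {F : Type} [Field F] [NumberField F] (c : F ≃ₐ[ℚ] F) {x : F}
    (hx : c x = -x) : Algebra.trace ℚ F x = 0 := by
  have h1 := Algebra.trace_eq_of_algEquiv c x
  rw [hx, map_neg] at h1
  linarith

theorem discr_involution {F : Type} [Field F] [NumberField F] (c : F ≃ₐ[ℚ] F)
    (hc : ∀ x, c (c x) = x) (y : F) (hy : y ≠ 0) (hcy : c y = -y) :
    ∃ r N : ℚ, r ≠ 0 ∧ N ^ 2 = Algebra.norm ℚ (y ^ 2) ∧ (discr F : ℚ) = r ^ 2 * N := by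
  classical
  set K : IntermediateField ℚ F := IntermediateField.fixedField (Subgroup.zpowers c) with hKdef
  have hK : ∀ x, x ∈ K ↔ c x = x := by
    intro x
    rw [hKdef, IntermediateField.mem_fixedField_iff]
    constructor
    · intro h
      exact h c (Subgroup.mem_zpowers c)
    · intro h g hg
      have h1 : Subgroup.zpowers c ≤ MulAction.stabilizer (F ≃ₐ[ℚ] F) x := by
        rw [Subgroup.zpowers_le]
        exact h
      exact h1 hg
  obtain ⟨e, he⟩ := exists_decomp c hc K hK y hy hcy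
  have hy2 : y ^ 2 ∈ K := by
    rw [hK, map_pow, hcy]
    ring
  set d : K := ⟨y ^ 2, hy2⟩ with hd
  set b := Module.finBasis ℚ K with hb
  set B : Basis (Fin (finrank ℚ K) ⊕ Fin (finrank ℚ K)) ℚ F := (b.prod b).map e with hB
  have hB1 : ∀ i, B (Sum.inl i) = (b i : F) := by
    intro i
    rw [hB, Basis.map_apply, Basis.prod_apply, he]
    simp
  have hB2 : ∀ i, B (Sum.inr i) = (b i : F) * y := by
    intro i
    rw [hB, Basis.map_apply, Basis.prod_apply, he]
    simp
  obtain ⟨G, hG⟩ : ∃ G : Matrix (Fin (finrank ℚ K)) (Fin (finrank ℚ K)) ℚ,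
      ∀ i j, G i j = Algebra.trace ℚ F ((b i : F) * (b j : F)) :=
    ⟨Matrix.of fun i j => Algebra.trace ℚ F ((b i : F) * (b j : F)), fun _ _ => rfl⟩
  have hcb : ∀ i, c (b i : F) = b i := fun i => (hK _).1 (b i).2
  have hm : ∀ i j, Algebra.trace ℚ F ((b i : F) * y * ((b j : F) * y)) =
      (G * Algebra.leftMulMatrix b d) i j := by
    intro i j
    rw [Matrix.mul_apply]
    have h1 : (d : K) * b j = ∑ k, Algebra.leftMulMatrix b d k j • b k := by
      conv_lhs => rw [← b.sum_repr (d * b j)]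
      exact Finset.sum_congr rfl fun k _ => by rw [Algebra.leftMulMatrix_eq_repr_mul]
    have h2 : (b i : F) * y * ((b j : F) * y) =
        ∑ k, Algebra.leftMulMatrix b d k j • ((b i : F) * (b k : F)) := by
      have h3 := congrArg (fun z : K => (z : F)) h1
      simp only [IntermediateField.coe_mul, IntermediateField.coe_sum,
        IntermediateField.coe_smul] at h3
      have h4 : (d : F) = y ^ 2 := rfl
      rw [h4] at h3
      calc (b i : F) * y * ((b j : F) * y) = (b i : F) * (y ^ 2 * (b j : F)) := by ring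
        _ = _ := by
          rw [h3, Finset.mul_sum]
          exact Finset.sum_congr rfl fun k _ => by rw [mul_smul_comm]
    rw [h2, map_sum]
    exact Finset.sum_congr rfl fun k _ => by rw [map_smul, hG, smul_eq_mul, mul_comm]
  have htr : Algebra.traceMatrix ℚ B =
      Matrix.fromBlocks G 0 0 (G * Algebra.leftMulMatrix b d) := by
    ext i j
    rcases i with i | i <;> rcases j with j | j
    · rw [Algebra.traceMatrix_apply, Algebra.traceForm_apply, hB1, hB1,
        Matrix.fromBlocks_apply₁₁, hG]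
    · rw [Algebra.traceMatrix_apply, Algebra.traceForm_apply, hB1, hB2,
        Matrix.fromBlocks_apply₁₂, Matrix.zero_apply]
      apply trace_anti c
      rw [map_mul, map_mul, hcb, hcb, hcy]
      ring
    · rw [Algebra.traceMatrix_apply, Algebra.traceForm_apply, hB1, hB2,
        Matrix.fromBlocks_apply₂₁, Matrix.zero_apply]
      apply trace_anti c
      rw [map_mul, map_mul, hcb, hcb, hcy]
      ring
    · rw [Algebra.traceMatrix_apply, Algebra.traceForm_apply, hB2, hB2,
        Matrix.fromBlocks_apply₂₂, hm]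
  have hdisc : Algebra.discr ℚ B = G.det ^ 2 * Algebra.norm ℚ d := by
    rw [Algebra.discr_def, htr, Matrix.det_fromBlocks_zero₂₁, Matrix.det_mul,
      ← Algebra.norm_eq_matrix_det b d]
    ring
  obtain ⟨r, hr, hr'⟩ := discr_basis_sq (integralBasis F) B
  have hG0 : G.det ≠ 0 := by
    intro h0
    have := Algebra.discr_not_zero_of_basis ℚ B
    rw [hdisc, h0] at this
    exact this (by ring)
  refine ⟨r * G.det, Algebra.norm ℚ d, mul_ne_zero hr hG0, ?_, ?_⟩
  · have h1 : Algebra.norm ℚ (y ^ 2) = Algebra.norm ℚ (Algebra.norm K (y ^ 2)) :=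
      Algebra.norm_norm.symm
    have h2 : y ^ 2 = algebraMap K F d := rfl
    have hcne : c ≠ 1 := by
      rintro rfl
      have h3 : y = -y := hcy
      have h4 : (2 : F) * y = 0 := by linear_combination h3
      exact hy ((mul_eq_zero.1 h4).resolve_left two_ne_zero)
    have h5 : finrank K F = 2 := by
      rw [hKdef, IntermediateField.finrank_fixedField_eq_card, Nat.card_zpowers]
      refine orderOf_eq_prime ?_ hcne
      ext x
      rw [pow_two]
      exact hc x
    rw [h1, h2, Algebra.norm_algebraMap, h5, map_pow]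
  · rw [coe_discr, hr', hdisc]
    ring

/-- positivity of a norm -/
theorem norm_neg_pos {F : Type} [Field F] [NumberField F] (D : maximalRealSubfield F)
    (hD : IsCMElt F D) :
    0 < (-1) ^ finrank ℚ (maximalRealSubfield F) * Algebra.norm ℚ D := by
  have h1 : (-1) ^ finrank ℚ (maximalRealSubfield F) * Algebra.norm ℚ D =
      Algebra.norm ℚ (-D) := by
    rw [← Algebra.norm_algebraMap (S := maximalRealSubfield F) (-1 : ℚ), ← map_mul, map_neg,
      map_one, neg_one_mul]
  rw [h1]
  have h2 := Algebra.norm_eq_prod_embeddings ℚ ℂ (-D)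
  have h3 : ∀ σ : maximalRealSubfield F →ₐ[ℚ] ℂ, ∃ t : ℝ, 0 < t ∧ σ (-D) = (t : ℂ) := by
    intro σ
    set φ := ComplexEmbedding.lift F (σ : maximalRealSubfield F →+* ℂ) with hφ
    have h4 : φ D = σ D := by
      have := ComplexEmbedding.lift_algebraMap_apply F (σ : maximalRealSubfield F →+* ℂ) D
      exact this
    refine ⟨-(φ D).re, by linarith [hD.1 φ], ?_⟩
    rw [map_neg, ← h4, real_val D φ]
    simp
  choose t ht ht' using h3
  rw [Finset.prod_congr rfl (fun σ _ => ht' σ), ← Complex.ofReal_prod] at h2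
  have h5 : ((Algebra.norm ℚ (-D) : ℚ) : ℝ) = ∏ σ, t σ := by
    have h6 : (((Algebra.norm ℚ (-D) : ℚ) : ℝ) : ℂ) = ((∏ σ, t σ : ℝ) : ℂ) := by
      rw [← h2]
      simp
    exact Complex.ofReal_injective h6
  have h7 : (0 : ℝ) < ((Algebra.norm ℚ (-D) : ℚ) : ℝ) := by
    rw [h5]
    exact Finset.prod_pos fun σ _ => ht σ
  exact_mod_cast h7

/-- the factor in the conjecture and the discriminant -/
theorem delta_discr {F : Type} [Field F] [NumberField F] (c : F ≃ₐ[ℚ] F)
    (hc : ∀ x, c (c x) = x) (hcm : ∃ D : maximalRealSubfield F, IsCMElt F D)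
    (hcy : ∀ (D : maximalRealSubfield F) (y : F), IsCMElt F D → y ^ 2 = D → c y = -y)
    (δ : ℂ) (hδ : IsDelta F δ) :
    ∃ r : ℚ, r ≠ 0 ∧
      (Real.sqrt |(discr F : ℝ)| : ℂ) = r * (Complex.I ^ (finrank ℚ F / 2) * δ) := by
  rcases hδ with ⟨D, hD, w, hw, rfl⟩ | ⟨h, -⟩
  swap
  · exact absurd hcm h
  obtain ⟨y, hy⟩ := hD.2
  have hy' : y ^ 2 = (D : F) := by rw [hy]; ring
  have hD0 : (D : F) ≠ 0 := by
    intro h0
    obtain ⟨φ⟩ : Nonempty (F →+* ℂ) := inferInstance
    have := hD.1 φ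
    rw [h0, map_zero] at this
    simp at this
  have hy0 : y ≠ 0 := by
    rintro rfl
    exact hD0 (by rw [← hy']; ring)
  obtain ⟨r, N, hr, hN, hdis⟩ := discr_involution c hc y hy0 (hcy D y hD hy')
  obtain ⟨k, hk⟩ := cm_even hD
  have hk' : finrank (maximalRealSubfield F) F / 2 = k := by omega
  have hdeg := Module.finrank_mul_finrank ℚ (maximalRealSubfield F) F
  have hh : finrank ℚ F / 2 = finrank ℚ (maximalRealSubfield F) * k := by
    rw [← hdeg, hk]
    have : finrank ℚ (maximalRealSubfield F) * (2 * k) =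
        2 * (finrank ℚ (maximalRealSubfield F) * k) := by ring
    rw [this]
    omega
  have hN2 : N ^ 2 = (Algebra.norm ℚ D ^ k) ^ 2 := by
    rw [hN, hy', ← Algebra.norm_norm (S := maximalRealSubfield F)]
    have h1 : (D : F) = algebraMap (maximalRealSubfield F) F D := rfl
    rw [h1, Algebra.norm_algebraMap, hk, map_pow]
    ring
  have hpos := norm_neg_pos D hD
  set A : ℚ := ((-1) ^ finrank ℚ (maximalRealSubfield F) * Algebra.norm ℚ D) ^ k with hA
  have hA0 : 0 < A := pow_pos hpos k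
  have hAabs : |N| = A := by
    have h2 : |N| = |Algebra.norm ℚ D ^ k| := by
      rw [← abs_of_nonneg (abs_nonneg N), ← abs_of_nonneg (abs_nonneg (Algebra.norm ℚ D ^ k))]
      rw [abs_abs, abs_abs]
      exact sq_eq_sq_iff_abs_eq_abs _ _ |>.1 hN2
    rw [h2, ← abs_of_pos hA0, hA, mul_pow, abs_mul, abs_pow (_ ^ _) k, abs_pow (-1), abs_neg,
      abs_one, one_pow, one_pow, one_mul]
  rw [hk', hh]
  set z : ℂ := Complex.I ^ (finrank ℚ (maximalRealSubfield F) * k) * w ^ k with hz
  have hz2 : z ^ 2 = ((A : ℝ) : ℂ) := by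
    rw [hz, mul_pow, ← pow_mul, ← pow_mul, mul_comm _ 2, pow_mul, Complex.I_sq, mul_comm k 2,
      pow_mul w, hw, hA]
    push_cast
    rw [mul_pow, pow_mul]
  have hzr : z = (Real.sqrt A : ℂ) ∨ z = -(Real.sqrt A : ℂ) := by
    apply sq_eq_sq_iff_eq_or_eq_neg.1
    rw [hz2, ← Complex.ofReal_pow, Real.sq_sqrt (by exact_mod_cast hA0.le)]
  have hsq : Real.sqrt |(discr F : ℝ)| = |(r : ℝ)| * Real.sqrt A := by
    have h3 : |(discr F : ℝ)| = (|(r : ℝ)|) ^ 2 * (A : ℝ) := by
      have h4 : (discr F : ℝ) = ((r ^ 2 * N : ℚ) : ℝ) := by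
        rw [← hdis]
        simp
      rw [h4, ← hAabs]
      push_cast
      rw [abs_mul, abs_pow]
    rw [h3, Real.sqrt_mul (sq_nonneg _), Real.sqrt_sq (abs_nonneg _)]
  rcases hzr with h | h
  · refine ⟨|r|, abs_ne_zero.2 hr, ?_⟩
    rw [h, hsq]
    push_cast
    have h9 : ((|r| : ℚ) : ℂ) = ((|(r : ℝ)| : ℝ) : ℂ) := by
      rw [← Complex.ofReal_ratCast, Rat.cast_abs]
    rw [h9]
  · refine ⟨-|r|, neg_ne_zero.2 (abs_ne_zero.2 hr), ?_⟩
    rw [h, hsq]
    push_cast
    have h9 : ((|r| : ℚ) : ℂ) = ((|(r : ℝ)| : ℝ) : ℂ) := by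
      rw [← Complex.ofReal_ratCast, Rat.cast_abs]
    rw [h9]
    ring

end CP18
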