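import Mathlib

/-!
# Parity of the rank of `T - 1` (MP_c63a07_nt)

For a nondegenerate bilinear form `B` and its asymmetry `T`, i.e. `B y x = B x (T y)`, the rank of
`T - 1` is even. For an isometry `T` of a nondegenerate symmetric form, `det T = (-1) ^ rank (T - 1)`.
-/

set_option autoImplicit false

open Module

namespace CP18

section General

variable {k V : Type*} [Field k] [AddCommGroup V] [Module k V] [FiniteDimensional k V]

/-- a linear map that relates a nondegenerate form and its transpose up to sign -/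
theorem det_of_transpose (K : V →ₗ[k] V →ₗ[k] k) (hK : ∀ y, (∀ x, K x y = 0) → y = 0)
    (τ : V →ₗ[k] V) (h : ∀ x y, K (τ y) x = - K x y) :
    LinearMap.det τ = (-1) ^ finrank k V := by
  classical
  set b := Module.finBasis k V with hb
  set J : Matrix (Fin (finrank k V)) (Fin (finrank k V)) k := Matrix.of fun i j => K (b i) (b j)
    with hJ
  have hdet : J.det ≠ 0 := by
    intro h0
    obtain ⟨v, hv, hv'⟩ := Matrix.exists_mulVec_eq_zero_iff.2 h0
    have h1 : ∑ j, v j • b j = 0 := by
      apply hK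
      have hz : K.flip (∑ j, v j • b j) = 0 := by
        refine b.ext fun i => ?_
        have h2 := congrFun hv' i
        simp only [Matrix.mulVec, dotProduct, hJ, Matrix.of_apply, Pi.zero_apply] at h2
        rw [LinearMap.flip_apply, map_sum, LinearMap.zero_apply, ← h2]
        exact Finset.sum_congr rfl fun j _ => by rw [map_smul, smul_eq_mul, mul_comm]
      intro x
      have := congrArg (fun f : V →ₗ[k] k => f x) hz
      exact this
    apply hv
    funext j
    exact Fintype.linearIndependent_iff.1 b.linearIndependent v h1 j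
  have hmat : (LinearMap.toMatrix b b τ).transpose * J = - J.transpose := by
    ext j i
    rw [Matrix.mul_apply]
    simp only [Matrix.transpose_apply, Matrix.neg_apply, hJ, Matrix.of_apply]
    rw [← h (b i) (b j)]
    conv_rhs => rw [← b.sum_repr (τ (b j))]
    simp only [map_sum, map_smul, LinearMap.sum_apply, LinearMap.smul_apply, smul_eq_mul]
    exact Finset.sum_congr rfl fun l _ => by rw [LinearMap.toMatrix_apply]
  have h5 := congrArg Matrix.det hmat
  rw [Matrix.det_mul, Matrix.det_transpose, LinearMap.det_toMatrix, Matrix.det_neg,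
    Matrix.det_transpose, Fintype.card_fin] at h5
  exact mul_right_cancel₀ hdet h5

end General

section Quot

variable {k V : Type*} [Field k] [AddCommGroup V] [Module k V]

/-- descent of a bilinear form to the quotient by a subspace in both radicals -/
theorem exists_quot (K : V →ₗ[k] V →ₗ[k] k) (W : Submodule k V)
    (h1 : ∀ x ∈ W, ∀ y, K x y = 0) (h2 : ∀ y ∈ W, ∀ x, K x y = 0) :
    ∃ K' : (V ⧸ W) →ₗ[k] (V ⧸ W) →ₗ[k] k, ∀ x y, K' (W.mkQ x) (W.mkQ y) = K x y := by
  have h3 : W ≤ LinearMap.ker K := by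
    intro x hx
    rw [LinearMap.mem_ker]
    ext y
    exact h1 x hx y
  let K1 : (V ⧸ W) →ₗ[k] V →ₗ[k] k := W.liftQ K h3
  have hK1 : ∀ x y, K1 (W.mkQ x) y = K x y := fun x y => rfl
  have h4 : W ≤ LinearMap.ker K1.flip := by
    intro y hy
    rw [LinearMap.mem_ker]
    ext x
    exact h2 y hy x
  let K2 : (V ⧸ W) →ₗ[k] (V ⧸ W) →ₗ[k] k := W.liftQ K1.flip h4
  exact ⟨K2.flip, fun x y => rfl⟩

theorem finrank_quot_ker [FiniteDimensional k V] (f : V →ₗ[k] V) :
    finrank k (V ⧸ LinearMap.ker f) = finrank k (LinearMap.range f) :=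
  f.quotKerEquivRange.finrank_eq

/-- The asymmetry `T` of a nondegenerate form: `T - 1` has even rank. -/
theorem even_rank_asymmetry [FiniteDimensional k V] (h2 : (2 : k) ≠ 0)
    (B : V →ₗ[k] V →ₗ[k] k) (hB : ∀ y, (∀ x, B x y = 0) → y = 0)
    (T : V →ₗ[k] V) (hT : ∀ x y, B y x = B x (T y)) :
    Even (finrank k (LinearMap.range (T - 1))) := by
  set W := LinearMap.ker (T - 1) with hW
  set A : V →ₗ[k] V →ₗ[k] k := B.flip - B with hA
  have hA1 : ∀ x y, A x y = B x ((T - 1) y) := by
    intro x y
    rw [hA]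
    simp only [LinearMap.sub_apply, LinearMap.flip_apply, Module.End.one_apply, map_sub, hT x y]
  have hA2 : ∀ x y, A x y = - A y x := by
    intro x y
    rw [hA]
    simp only [LinearMap.sub_apply, LinearMap.flip_apply]
    ring
  have hr : ∀ y ∈ W, ∀ x, A x y = 0 := by
    intro y hy x
    rw [hA1, LinearMap.mem_ker.1 hy, map_zero]
  have hl : ∀ x ∈ W, ∀ y, A x y = 0 := by
    intro x hx y
    rw [hA2, hr x hx y, neg_zero]
  obtain ⟨K, hK⟩ := exists_quot A W hl hr
  have h3 := det_of_transpose K (by
    intro y hy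
    obtain ⟨y, rfl⟩ := W.mkQ_surjective y
    have h4 : (T - 1) y = 0 := by
      apply hB
      intro x
      rw [← hA1, ← hK]
      exact hy _
    exact (Submodule.Quotient.mk_eq_zero W).2 h4) LinearMap.id (by
    intro x y
    obtain ⟨x, rfl⟩ := W.mkQ_surjective x
    obtain ⟨y, rfl⟩ := W.mkQ_surjective y
    rw [LinearMap.id_apply, hK, hK, hA2])
  rw [LinearMap.det_id] at h3
  rw [← finrank_quot_ker (T - 1)]
  rcases Nat.even_or_odd (finrank k (V ⧸ W)) with h4 | h4
  · exact h4
  · rw [h4.neg_one_pow] at h3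
    exfalso
    apply h2
    calc (2 : k) = 1 + 1 := by norm_num
      _ = 1 + (-1) := by rw [← h3]
      _ = 0 := by ring

/-- An isometry of a nondegenerate symmetric form. -/
theorem det_isometry [FiniteDimensional k V]
    (B : V →ₗ[k] V →ₗ[k] k) (hB : ∀ y, (∀ x, B x y = 0) → y = 0) (hs : ∀ x y, B x y = B y x)
    (T : V →ₗ[k] V) (hT : ∀ x y, B (T x) (T y) = B x y) :
    LinearMap.det T = (-1) ^ finrank k (LinearMap.range (T - 1)) := by
  set W := LinearMap.ker (T - 1) with hW
  have hTW : ∀ x ∈ W, T x = x := by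
    intro x hx
    have := LinearMap.mem_ker.1 hx
    rw [LinearMap.sub_apply, Module.End.one_apply, sub_eq_zero] at this
    exact this
  set A : V →ₗ[k] V →ₗ[k] k := B.compl₂ (T - 1) with hA
  have hA1 : ∀ x y, A x y = B x (T y) - B x y := by
    intro x y
    rw [hA]
    simp only [LinearMap.compl₂_apply, LinearMap.sub_apply, Module.End.one_apply, map_sub]
  have hr : ∀ y ∈ W, ∀ x, A x y = 0 := by
    intro y hy x
    rw [hA1, hTW y hy, sub_self]
  have hl : ∀ x ∈ W, ∀ y, A x y = 0 := by
    intro x hx y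
    rw [hA1]
    nth_rewrite 1 [← hTW x hx]
    rw [hT, sub_self]
  obtain ⟨K, hK⟩ := exists_quot A W hl hr
  have hmap : W ≤ W.comap T := by
    intro x hx
    rw [Submodule.mem_comap, hTW x hx]
    exact hx
  have h3 := det_of_transpose K (by
    intro y hy
    obtain ⟨y, rfl⟩ := W.mkQ_surjective y
    have h4 : (T - 1) y = 0 := by
      apply hB
      intro x
      have h5 := hy (W.mkQ x)
      rw [hK, hA1] at h5
      rw [LinearMap.sub_apply, Module.End.one_apply, map_sub]
      exact h5
    exact (Submodule.Quotient.mk_eq_zero W).2 h4) (W.mapQ W T hmap) (by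
    intro x y
    obtain ⟨x, rfl⟩ := W.mkQ_surjective x
    obtain ⟨y, rfl⟩ := W.mkQ_surjective y
    have h6 : (W.mapQ W T hmap) (W.mkQ y) = W.mkQ (T y) := rfl
    rw [h6, hK, hK, hA1, hA1, hT, hs y x, hs (T y) x]
    ring)
  have h7 := LinearMap.det_eq_det_mul_det W T hmap
  have h8 : T.restrict hmap = LinearMap.id := by
    ext x
    exact hTW x.1 x.2
  rw [h8, LinearMap.det_id, one_mul] at h7
  rw [h7, h3, ← finrank_quot_ker (T - 1)]

end Quot

end CP18
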