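import Pool.Agent.Helper64.BKA.CoreV

/-!
# Conductors of conjugate self-dual motives (MP_c63a07_nt)
-/

set_option autoImplicit false

open NumberField BKA

namespace CP18

/-- a product over a finite set with an involution is a square if the fixed terms are squares -/
theorem isSquare_prod {ι : Type*} [DecidableEq ι] (f : ι → ι) (g : ι → ℕ) (n : ℕ) :
    ∀ S : Finset ι, S.card ≤ n → (∀ i ∈ S, f i ∈ S) → (∀ i ∈ S, f (f i) = i) →
    (∀ i ∈ S, g (f i) = g i) → (∀ i ∈ S, f i = i → IsSquare (g i)) →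
    IsSquare (∏ i ∈ S, g i) := by
  induction n with
  | zero =>
    intro S hS _ _ _ _
    have : S = ∅ := Finset.card_eq_zero.1 (by omega)
    rw [this, Finset.prod_empty]
    exact ⟨1, rfl⟩
  | succ n ih =>
    intro S hS h1 h2 h3 h4
    rcases S.eq_empty_or_nonempty with h | ⟨i, hi⟩
    · rw [h, Finset.prod_empty]
      exact ⟨1, rfl⟩
    by_cases hfi : f i = i
    · rw [← Finset.mul_prod_erase S g hi]
      refine (h4 i hi hfi).mul (ih (S.erase i) ?_ ?_ ?_ ?_ ?_)
      · have := Finset.card_erase_lt_of_mem hi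
        omega
      · intro j hj
        have hj' := Finset.mem_erase.1 hj
        refine Finset.mem_erase.2 ⟨?_, h1 j hj'.2⟩
        intro h5
        have h6 := h2 j hj'.2
        rw [h5, hfi] at h6
        exact hj'.1 h6.symm
      · exact fun j hj => h2 j (Finset.mem_of_mem_erase hj)
      · exact fun j hj => h3 j (Finset.mem_of_mem_erase hj)
      · exact fun j hj => h4 j (Finset.mem_of_mem_erase hj)
    · have hfi' : f i ∈ S.erase i := Finset.mem_erase.2 ⟨hfi, h1 i hi⟩
      rw [← Finset.mul_prod_erase S g hi, ← Finset.mul_prod_erase (S.erase i) g hfi', h3 i hi,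
        ← mul_assoc]
      refine IsSquare.mul ⟨g i, rfl⟩ (ih ((S.erase i).erase (f i)) ?_ ?_ ?_ ?_ ?_)
      · have := Finset.card_erase_lt_of_mem hi
        have := Finset.card_erase_lt_of_mem hfi'
        omega
      · intro j hj
        have hj1 := Finset.mem_erase.1 hj
        have hj2 := Finset.mem_erase.1 hj1.2
        refine Finset.mem_erase.2 ⟨?_, Finset.mem_erase.2 ⟨?_, h1 j hj2.2⟩⟩
        · intro h5
          have h6 := h2 j hj2.2
          rw [h5, h2 i hi] at h6
          exact hj2.1 h6.symm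
        · intro h5
          have h6 := h2 j hj2.2
          rw [h5] at h6
          exact hj1.1 h6.symm
      · exact fun j hj => h2 j (Finset.mem_of_mem_erase (Finset.mem_of_mem_erase hj))
      · exact fun j hj => h3 j (Finset.mem_of_mem_erase (Finset.mem_of_mem_erase hj))
      · exact fun j hj => h4 j (Finset.mem_of_mem_erase (Finset.mem_of_mem_erase hj))

/-- a finite field with an automorphism of order two has square cardinality -/
theorem isSquare_card {k : Type*} [Field k] [Finite k] (τ : k ≃+* k) (h2 : ∀ x, τ (τ x) = x)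
    (h1 : ∃ x, τ x ≠ x) : IsSquare (Nat.card k) := by
  obtain ⟨y, hy⟩ := h1
  set u : k := τ y - y with hu
  have hu0 : u ≠ 0 := sub_ne_zero.2 hy
  have hτu : τ u = -u := by
    rw [hu, map_sub, h2]
    ring
  let f : k →+ k := ((τ : k ≃+* k) : k →+* k).toAddMonoidHom - AddMonoidHom.id k
  have hf : ∀ x, f x = τ x - x := fun x => rfl
  have hker : ∀ x, x ∈ f.ker ↔ τ x = x := by
    intro x
    rw [AddMonoidHom.mem_ker, hf, sub_eq_zero]
  have hran : ∀ x, x ∈ f.range ↔ ∃ z, τ z = z ∧ x = z * u := by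
    intro x
    constructor
    · rintro ⟨w, rfl⟩
      refine ⟨f w / u, ?_, by rw [div_mul_cancel₀ _ hu0]⟩
      rw [hf, map_div₀, hτu, map_sub, h2]
      rw [div_eq_div_iff (neg_ne_zero.2 hu0) hu0]
      ring
    · rintro ⟨z, hz, rfl⟩
      refine ⟨z * y, ?_⟩
      rw [hf, map_mul, hz, hu]
      ring
  have hcard : Nat.card f.range = Nat.card f.ker := by
    refine (Nat.card_congr (Equiv.ofBijective (fun x : f.ker =>
      (⟨(x : k) * u, (hran _).2 ⟨x, (hker _).1 x.2, rfl⟩⟩ : f.range)) ⟨?_, ?_⟩)).symm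
    · intro a b hab
      have := congrArg Subtype.val hab
      exact Subtype.ext (mul_right_cancel₀ hu0 this)
    · rintro ⟨x, hx⟩
      obtain ⟨z, hz, rfl⟩ := (hran x).1 hx
      exact ⟨⟨z, (hker z).2 hz⟩, rfl⟩
  have h3 : Nat.card k = Nat.card (k ⧸ f.ker) * Nat.card f.ker :=
    AddSubgroup.card_eq_card_quotient_mul_card_addSubgroup f.ker
  have h4 : Nat.card (k ⧸ f.ker) = Nat.card f.range :=
    Nat.card_congr (QuotientAddGroup.quotientKerEquivRange f).toEquiv
  exact ⟨Nat.card f.ker, by rw [h3, h4, hcard]⟩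

section

variable {F : Type} [Field F] [NumberField F]

/-- the automorphism of the ring of integers -/
noncomputable def cO (c : F ≃ₐ[ℚ] F) : 𝓞 F ≃+* 𝓞 F :=
  RingOfIntegers.mapRingEquiv (c : F ≃+* F)

theorem cO_coe (c : F ≃ₐ[ℚ] F) (x : 𝓞 F) : ((cO c x : 𝓞 F) : F) = c (x : F) := rfl

theorem cO_cO {c : F ≃ₐ[ℚ] F} (hc : ∀ x, c (c x) = x) (x : 𝓞 F) : cO c (cO c x) = x := by
  apply RingOfIntegers.ext
  rw [cO_coe, cO_coe, hc]

/-- the place `c⁻¹ v` -/
noncomputable def cPl (c : F ≃ₐ[ℚ] F) (v : Pl F) : Pl F where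
  asIdeal := v.asIdeal.comap (cO c : 𝓞 F →+* 𝓞 F)
  isPrime := v.isPrime.comap _
  ne_bot := by
    intro h
    apply v.ne_bot
    rw [eq_bot_iff]
    intro x hx
    obtain ⟨y, rfl⟩ := (cO c).surjective x
    have h1 : y ∈ v.asIdeal.comap (cO c : 𝓞 F →+* 𝓞 F) := hx
    rw [h, Ideal.mem_bot] at h1
    rw [h1, map_zero]
    exact Ideal.zero_mem _

theorem mem_cPl {c : F ≃ₐ[ℚ] F} {v : Pl F} {x : 𝓞 F} :
    x ∈ (cPl c v).asIdeal ↔ cO c x ∈ v.asIdeal := Iff.rfl

theorem cPl_cPl {c : F ≃ₐ[ℚ] F} (hc : ∀ x, c (c x) = x) (v : Pl F) : cPl c (cPl c v) = v := by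
  apply IsDedekindDomain.HeightOneSpectrum.ext
  ext x
  rw [mem_cPl, mem_cPl, cO_cO hc]

theorem q_cPl (c : F ≃ₐ[ℚ] F) (v : Pl F) : q (cPl c v) = q v := by
  unfold q
  rw [Ideal.absNorm_apply, Ideal.absNorm_apply, Submodule.cardQuot_apply,
    Submodule.cardQuot_apply]
  refine Nat.card_congr (Ideal.quotientEquiv (cPl c v).asIdeal v.asIdeal (cO c) ?_).toEquiv
  exact (Ideal.map_comap_of_surjective _ (cO c).surjective v.asIdeal).symm

/-- if `c` fixes `v` and is not in the inertia group then the norm of `v` is a square -/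
theorem q_square {c : F ≃ₐ[ℚ] F} (hc : ∀ x, c (c x) = x) {v : Pl F} (hv : cPl c v = v)
    (hi : ∃ x : 𝓞 F, cO c x - x ∉ v.asIdeal) : IsSquare (q v) := by
  have hmap : v.asIdeal = v.asIdeal.map (cO c : 𝓞 F →+* 𝓞 F) := by
    conv_rhs => rw [← hv]
    exact (Ideal.map_comap_of_surjective _ (cO c).surjective v.asIdeal).symm
  have : v.asIdeal.IsMaximal := v.isMaximal
  let _ : Field (𝓞 F ⧸ v.asIdeal) := Ideal.Quotient.field v.asIdeal
  have : Finite (𝓞 F ⧸ v.asIdeal) := Ideal.finiteQuotientOfFreeOfNeBot v.asIdeal v.ne_bot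
  have h1 := isSquare_card (Ideal.quotientEquiv v.asIdeal v.asIdeal (cO c) hmap)
    (by
      intro x
      obtain ⟨x, rfl⟩ := Ideal.Quotient.mk_surjective x
      rw [Ideal.quotientEquiv_mk, Ideal.quotientEquiv_mk, cO_cO hc])
    (by
      obtain ⟨x, hx⟩ := hi
      refine ⟨Ideal.Quotient.mk _ x, ?_⟩
      rw [Ideal.quotientEquiv_mk]
      intro h
      exact hx (Ideal.Quotient.eq.1 h))
  unfold q
  rw [Ideal.absNorm_apply, Submodule.cardQuot_apply]
  exact h1

/-- the conductor of a conjugate self-dual motive is a square -/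
theorem conductor_square {c : F ≃ₐ[ℚ] F} (hc : ∀ x, c (c x) = x) (a : Pl F →₀ ℕ)
    (ha : ∀ v, a (cPl c v) = a v)
    (hr : ∀ v, cPl c v = v → (∀ x : 𝓞 F, cO c x - x ∈ v.asIdeal) → Even (a v)) :
    IsSquare (a.prod fun v n => q v ^ n) := by
  classical
  unfold Finsupp.prod
  refine isSquare_prod (cPl c) (fun v => q v ^ a v) _ a.support le_rfl ?_ ?_ ?_ ?_
  · intro v hv
    rw [Finsupp.mem_support_iff] at hv ⊢
    rw [ha v]
    exact hv
  · exact fun v _ => cPl_cPl hc v
  · intro v _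
    rw [ha, q_cPl]
  · intro v _ hv
    by_cases hi : ∀ x : 𝓞 F, cO c x - x ∈ v.asIdeal
    · obtain ⟨b, hb⟩ := hr v hv hi
      exact ⟨q v ^ b, by rw [hb, pow_add]⟩
    · push Not at hi
      exact (q_square hc hv hi).pow _

end

end CP18
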