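import Pool.Agent.Helper18.CP.Defs
import Pool.Agent.Helper18.CP.Lin
import Pool.Agent.Helper18.CP.Places
import Pool.Agent.Helper18.CP.Disc

/-!
# The central pair of critical values of a conjugate self-dual motive (MP_c63a07_nt)
-/

set_option autoImplicit false

open NumberField BKA

namespace CP18

/-- the exponent of the conductor is even at tame places that ramify over the fixed field of `c` -/
theorem even_of_tame {F : Type} [Field F] [NumberField F] {c : F ≃ₐ[ℚ] F} {k : Type}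
    [Field k] [CharZero k] {n : ℕ} (R : ConjOrth F c k n) {v : Pl F} {a : ℕ}
    (h : R.Tame v a) : Even a := by
  obtain ⟨𝔓, s, τ, -, hs, hs', hχ, hτ, hinv, ha⟩ := h
  obtain ⟨B, hB, -, hB2⟩ := R.pair s hs
  set T : (Fin n → k) →ₗ[k] (Fin n → k) :=
    Matrix.mulVecLin ((R.ρ τ : Matrix.GeneralLinearGroup (Fin n) k) : Matrix (Fin n) (Fin n) k)
    with hT
  have hTv : ∀ x, T x = vec R.ρ τ x := fun x => rfl
  have h1 := even_rank_asymmetry (k := k) two_ne_zero B hB T (by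
    intro x y
    rw [hTv, hB2 τ hτ x y, hχ, inv_one, Units.val_one, one_mul])
  have hcongr : Congr 𝔓 1 τ := by
    intro x y hxy
    rw [pow_one]
    rw [hτ] at hxy
    obtain ⟨w, hw⟩ : ∃ w : Zb F, (w : AlgebraicClosure F) = s (x : AlgebraicClosure F) := by
      refine ⟨⟨s (x : AlgebraicClosure F), ?_⟩, rfl⟩
      exact x.2.map ((s : AlgebraicClosure F →+* AlgebraicClosure F).toIntAlgHom)
    have h2 := hs' x w hw
    have h3 := hs' w y (by rw [hxy, hw])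
    have h4 : y - x = (y - w) + (w - x) := by ring
    rw [h4]
    exact 𝔓.add_mem h3 h2
  have hker : LinearMap.ker (T - 1) = R.inv 𝔓 := by
    ext x
    rw [LinearMap.mem_ker, LinearMap.sub_apply, Module.End.one_apply, sub_eq_zero, hTv]
    constructor
    · exact hinv x
    · intro hx
      exact hx τ hcongr
  have h5 := LinearMap.finrank_range_add_finrank_ker (T - 1)
  rw [hker, Module.finrank_fin_fun] at h5
  have h6 : a = Module.finrank k (LinearMap.range (T - 1)) := by omega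
  rw [h6]
  exact h1

/-- the square root of the conductor -/
theorem sqrt_cond {F : Type} [Field F] [NumberField F] (c : F ≃ₐ[ℚ] F)
    (hc : ∀ x, c (c x) = x) (hcm : ∃ D : maximalRealSubfield F, IsCMElt F D)
    (hcy : ∀ (D : maximalRealSubfield F) (y : F), IsCMElt F D → y ^ 2 = D → c y = -y)
    (n : ℕ) (a : Pl F →₀ ℕ) (ha : IsSquare (a.prod fun v j => q v ^ j))
    (δ : ℂ) (hδ : IsDelta F δ) :
    ∃ r : ℚ, r ≠ 0 ∧ ((cond F n a : ℂ)) ^ (1 / 2 : ℂ) =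
      r * (Complex.I ^ (Module.finrank ℚ F / 2) * δ) ^ n := by
  obtain ⟨r, hr, hr'⟩ := delta_discr c hc hcm hcy δ hδ
  obtain ⟨t, ht⟩ := ha
  have ht0 : t ≠ 0 := by
    rintro rfl
    rw [mul_zero, Finsupp.prod, Finset.prod_eq_zero_iff] at ht
    obtain ⟨v, -, hv⟩ := ht
    have h1 : q v = 0 := by
      by_contra hq
      exact pow_ne_zero _ hq hv
    have h2 : q v ≠ 0 := by
      unfold q
      rw [Ne, Ideal.absNorm_eq_zero_iff]
      exact v.ne_bot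
    exact h2 h1
  refine ⟨r ^ n * t, mul_ne_zero (pow_ne_zero n hr) (by exact_mod_cast ht0), ?_⟩
  have h3 : ((cond F n a : ℂ)) = ((((Real.sqrt |(discr F : ℝ)|) ^ n * t) ^ 2 : ℝ) : ℂ) := by
    have h4 : ((cond F n a : ℕ) : ℝ) = ((Real.sqrt |(discr F : ℝ)|) ^ n * t) ^ 2 := by
      unfold cond
      rw [ht, mul_pow, ← pow_mul, mul_comm n 2, pow_mul, Real.sq_sqrt (abs_nonneg _)]
      push_cast
      rw [Nat.cast_natAbs]
      push_cast
      ring
    rw [← h4]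
    simp
  have h5 : (0 : ℝ) ≤ (Real.sqrt |(discr F : ℝ)|) ^ n * t := by positivity
  have h6 : ((cond F n a : ℂ)) ^ (1 / 2 : ℂ) =
      (((Real.sqrt |(discr F : ℝ)|) ^ n * t : ℝ) : ℂ) := by
    rw [h3]
    have h7 : (1 / 2 : ℂ) = ((1 / 2 : ℝ) : ℂ) := by push_cast; rfl
    rw [h7, ← Complex.ofReal_cpow (sq_nonneg _), ← Real.sqrt_eq_rpow, Real.sqrt_sq h5]
  rw [h6]
  push_cast
  rw [hr', mul_pow, mul_pow]
  ring

/-- the square of the factor is rational -/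
theorem factor_sq {F : Type} [Field F] [NumberField F] {δ : ℂ} (hδ : IsDelta F δ) (h : ℕ) :
    ∃ b : ℚ, b ≠ 0 ∧ (Complex.I ^ h * δ) ^ 2 = b := by
  obtain ⟨b, hb, hb'⟩ := delta_sq hδ
  refine ⟨(-1) ^ h * b, mul_ne_zero (pow_ne_zero _ (by norm_num)) hb, ?_⟩
  rw [mul_pow, ← pow_mul, mul_comm h 2, pow_mul, Complex.I_sq, hb']
  push_cast
  rfl

theorem central (F E : Type) [Field F] [NumberField F] [Field E] [NumberField E]
    (c : F ≃ₐ[ℚ] F) (hc : ∀ x, c (c x) = x)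
    (hcm : ∃ D : maximalRealSubfield F, IsCMElt F D)
    (hcy : ∀ (D : maximalRealSubfield F) (y : F), IsCMElt F D → y ^ 2 = D → c y = -y)
    (n : ℕ) (m : ℤ) (M : MotT F E n (2 * m)) (a : Pl F →₀ ℕ)
    (ha : ∀ v v' : Pl F, (∀ x y : 𝓞 F, (y : F) = c (x : F) → (x ∈ v.asIdeal ↔ y ∈ v'.asIdeal)) →
      a v = a v')
    (I : Type) (k : I → Type) [∀ i, Field (k i)] [∀ i, CharZero (k i)]
    (R : ∀ i, ConjOrth F c (k i) n)
    (ht : ∀ v : Pl F, (∀ x y : 𝓞 F, (y : F) = c (x : F) → y - x ∈ v.asIdeal) →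
      ∃ i, (R i).Tame v (a v))
    (Λ : (E →+* ℂ) → ℂ → ℂ) (hΛ : ∀ ι, Contn (M.L ι) (Λ ι) m)
    (h0 : ∀ ι, Λ ι (m + 1) ≠ 0) (ε : ℤ) (hε : ε = 1 ∨ ε = -1)
    (hfe : ∀ ι, FunEq (Λ ι) (2 * m) (cond F n a) ε) :
    (M.Crit m ∧ M.Crit (m + 1) ∧ Ratio F E n m Λ) ∧
      ∀ j : ℤ, (∀ ι, AnalyticAt ℂ (Λ ι) j ∧ AnalyticAt ℂ (Λ ι) (j + 1) ∧
        AnalyticAt ℂ (Λ ι) ((2 * m - j : ℤ) : ℂ) ∧ AnalyticAt ℂ (Λ ι) ((2 * m - j : ℤ) + 1)) →
      Ratio F E n j Λ → Ratio F E n (2 * m - j) Λ := by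
  have hsq : IsSquare (a.prod fun v j => q v ^ j) := by
    refine conductor_square hc a ?_ ?_
    · intro v
      refine ha (cPl c v) v ?_
      intro x y hxy
      have h1 : y = cO c x := RingOfIntegers.ext hxy
      rw [h1]
      exact mem_cPl
    · intro v _ hi
      obtain ⟨i, hi'⟩ := ht v (by
        intro x y hxy
        have h1 : y = cO c x := RingOfIntegers.ext hxy
        rw [h1]
        exact hi x)
      exact even_of_tame (R i) hi'
  have hN0 : ((cond F n a : ℕ) : ℂ) ≠ 0 := by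
    obtain ⟨δ, hδ⟩ : ∃ δ : ℂ, IsDelta F δ := by
      obtain ⟨D, hD⟩ := hcm
      obtain ⟨y, hy⟩ := IsAlgClosed.exists_pow_nat_eq ((Algebra.norm ℚ D : ℚ) : ℂ) (n := 2)
        (by norm_num)
      exact ⟨_, Or.inl ⟨D, hD, y, hy, rfl⟩⟩
    obtain ⟨r, hr, hr'⟩ := sqrt_cond c hc hcm hcy n a hsq δ hδ
    intro h
    rw [h, Complex.zero_cpow (by norm_num)] at hr'
    obtain ⟨b, hb, hb'⟩ := factor_sq hδ (Module.finrank ℚ F / 2)
    have h1 : (Complex.I ^ (Module.finrank ℚ F / 2) * δ) ≠ 0 := by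
      intro h2
      rw [h2] at hb'
      apply hb
      have h3 : ((b : ℚ) : ℂ) = 0 := by rw [← hb']; ring
      exact_mod_cast h3
    exact mul_ne_zero (by exact_mod_cast hr) (pow_ne_zero n h1) hr'.symm
  have hε0 : (ε : ℚ) ≠ 0 := by
    rcases hε with h | h <;> rw [h] <;> norm_num
  refine ⟨⟨?_, ?_, ?_⟩, ?_⟩
  · intro ι p hp
    have := (M.hodge ι).1 p hp
    omega
  · intro ι p hp
    have := (M.hodge ι).1 p hp
    omega
  · intro δ hδ
    obtain ⟨r, hr, hr'⟩ := sqrt_cond c hc hcm hcy n a hsq δ hδ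
    refine ⟨((ε * r : ℚ) : E), by exact_mod_cast mul_ne_zero hε0 hr, ?_⟩
    intro ι
    have e1 : (((2 * m : ℤ) : ℂ) + 1 - (m : ℂ)) = (m : ℂ) + 1 := by push_cast; ring
    have h1 := hfe ι (m : ℂ) (hΛ ι).2.2.1 (by rw [e1]; exact (hΛ ι).2.2.2)
    have e2 : ((((2 * m : ℤ) : ℂ) + 1) / 2 - (m : ℂ)) = 1 / 2 := by push_cast; ring
    rw [e1, e2, hr'] at h1
    rw [h1, mul_div_assoc, div_self (h0 ι), mul_one]
    push_cast
    rw [map_mul, map_intCast, map_ratCast]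
    ring
  · intro j hj hR δ hδ
    obtain ⟨e, he, he'⟩ := hR δ hδ
    obtain ⟨b, hb, hb'⟩ := factor_sq hδ (Module.finrank ℚ F / 2)
    set z : ℂ := Complex.I ^ (Module.finrank ℚ F / 2) * δ with hz
    have hz0 : z ≠ 0 := by
      intro h2
      rw [h2] at hb'
      apply hb
      have h3 : ((b : ℚ) : ℂ) = 0 := by rw [← hb']; ring
      exact_mod_cast h3
    have hbE : ((b : ℚ) : E) ≠ 0 := by exact_mod_cast hb
    have hNE : ((cond F n a : ℕ) : E) ≠ 0 := by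
      intro h
      have h4 : cond F n a = 0 := by exact_mod_cast h
      exact hN0 (by rw [h4]; simp)
    refine ⟨(cond F n a : E) / (e * ((b : ℚ) : E) ^ n),
      div_ne_zero hNE (mul_ne_zero he (pow_ne_zero _ hbE)), ?_⟩
    intro ι
    obtain ⟨a1, a2, a3, a4⟩ := hj ι
    have h5 := he' ι
    have hιe : ι e ≠ 0 := by
      rw [Ne, map_eq_zero]
      exact he
    have hne : Λ ι j / Λ ι (j + 1) ≠ 0 := by
      rw [h5]
      exact mul_ne_zero hιe (pow_ne_zero n hz0)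
    have hj0 : Λ ι j ≠ 0 := fun h => hne (by rw [h, zero_div])
    have hj1 : Λ ι (j + 1) ≠ 0 := fun h => hne (by rw [h, div_zero])
    have e1 : (((2 * m : ℤ) : ℂ) + 1 - (j : ℂ)) = ((2 * m - j : ℤ) : ℂ) + 1 := by
      push_cast; ring
    have e2 : (((2 * m : ℤ) : ℂ) + 1 - ((j : ℂ) + 1)) = ((2 * m - j : ℤ) : ℂ) := by
      push_cast; ring
    have f1 := hfe ι (j : ℂ) a1 (by rw [e1]; exact a4)
    have f2 := hfe ι ((j : ℂ) + 1) a2 (by rw [e2]; exact a3)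
    rw [e1] at f1
    rw [e2] at f2
    have e3 : ((cond F n a : ℕ) : ℂ) ^ ((((2 * m : ℤ) : ℂ) + 1) / 2 - (j : ℂ)) =
        (cond F n a : ℕ) *
          ((cond F n a : ℕ) : ℂ) ^ ((((2 * m : ℤ) : ℂ) + 1) / 2 - ((j : ℂ) + 1)) := by
      have e4 : ((((2 * m : ℤ) : ℂ) + 1) / 2 - (j : ℂ)) =
          1 + ((((2 * m : ℤ) : ℂ) + 1) / 2 - ((j : ℂ) + 1)) := by ring
      rw [e4, Complex.cpow_add _ _ hN0, Complex.cpow_one]
    rw [e3] at f1
    set P : ℂ := ((cond F n a : ℕ) : ℂ) ^ ((((2 * m : ℤ) : ℂ) + 1) / 2 - ((j : ℂ) + 1)) with hP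
    have hεC : (ε : ℂ) ≠ 0 := by
      rcases hε with h | h <;> rw [h] <;> norm_num
    have hP0 : P ≠ 0 := by
      intro h
      rw [h, mul_zero, zero_mul] at f2
      exact hj1 f2
    have g1 : Λ ι (((2 * m - j : ℤ) : ℂ) + 1) ≠ 0 := by
      intro h
      rw [h, mul_zero] at f1
      exact hj0 f1
    have h6 : Λ ι ((2 * m - j : ℤ) : ℂ) / Λ ι (((2 * m - j : ℤ) : ℂ) + 1) =
        (cond F n a : ℕ) / (Λ ι j / Λ ι (j + 1)) := by
      rw [f1, f2] at *
      field_simp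
    rw [h6, h5]
    have hb2 : z ^ (2 * n) = ((b : ℚ) : ℂ) ^ n := by rw [pow_mul, hb']
    have hbC : ((b : ℚ) : ℂ) ≠ 0 := by exact_mod_cast hb
    rw [map_div₀, map_mul, map_pow, map_natCast, map_ratCast]
    rw [div_eq_iff (mul_ne_zero hιe (pow_ne_zero n hz0))]
    have h7 : (cond F n a : ℂ) / (ι e * ((b : ℚ) : ℂ) ^ n) * z ^ n * (ι e * z ^ n) =
        (cond F n a : ℂ) * (z ^ (2 * n) / ((b : ℚ) : ℂ) ^ n) * (ι e / ι e) := by
      field_simp
      ring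
    rw [h7, hb2, div_self (pow_ne_zero n hbC), div_self hιe]
    ring

end CP18
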